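import Mathlib

set_option autoImplicit false

namespace Pool.Agent.H.MP_19b229_an

open MeasureTheory Filter Topology Metric Set

abbrev E (N : ℕ) := EuclideanSpace ℝ (Fin N)

/-- the fundamental solution up to a constant factor -/
noncomputable def Gam (N : ℕ) (x : E N) : ℝ :=
  if N = 2 then -Real.log ‖x‖ else ‖x‖ ^ (2 - N : ℝ)

variable {N : ℕ}

noncomputable def G (N : ℕ) (t : ℝ) : ℝ :=
  if N = 2 then -(1 / 2) * Real.log t else t ^ ((2 - N : ℝ) / 2)

noncomputable def bb (N : ℕ) : ℝ := if N = 2 then -(1 / 2) else (2 - N : ℝ) / 2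

lemma bb_neg (h : 2 ≤ N) : bb N < 0 := by
  unfold bb; split_ifs with e
  · norm_num
  · have : (2 : ℝ) < N := by exact_mod_cast lt_of_le_of_ne h (Ne.symm e)
    linarith

lemma G_eq (x : E N) : G N (‖x‖ ^ 2) = Gam N x := by
  unfold G Gam; split_ifs with e
  · rw [Real.log_pow]; push_cast; ring
  · rw [← Real.rpow_natCast, ← Real.rpow_mul (norm_nonneg _)]; congr 1; push_cast; ring

lemma G_der {t : ℝ} (ht : 0 < t) : HasDerivAt (G N) (bb N * t ^ (-(N : ℝ) / 2)) t := by
  unfold G bb; split_ifs with e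
  · subst e
    have := (Real.hasDerivAt_log ht.ne').const_mul (-(1 / 2))
    rwa [← Real.rpow_neg_one, show (-1 : ℝ) = -((2 : ℕ) : ℝ) / 2 by norm_num] at this
  · convert Real.hasDerivAt_rpow_const (p := (2 - N : ℝ) / 2) (Or.inl ht.ne') using 3
    ring

lemma G_anti (h : 2 ≤ N) : AntitoneOn (G N) (Ioi 0) :=
  antitoneOn_of_deriv_nonpos (convex_Ioi 0)
    (fun _ ht => (G_der ht).continuousAt.continuousWithinAt)
    (fun _ ht => (G_der (interior_subset ht)).differentiableAt.differentiableWithinAt)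
    fun t ht => by
      have ht' : 0 < t := interior_subset ht
      rw [(G_der ht').deriv]
      exact mul_nonpos_of_nonpos_of_nonneg (bb_neg h).le (by positivity)

lemma Gam_meas : Measurable (Gam N) := by
  unfold Gam; split_ifs <;> fun_prop

lemma Gam_li (h : 2 ≤ N) : LocallyIntegrable (Gam N) := by
  have h2 : (2 : ℝ) ≤ N := by exact_mod_cast h
  by_cases e : N = 2
  · have h1 : LocallyIntegrable (fun x : E N => ‖x‖ ^ (-(1 : ℝ))) :=
      locallyIntegrable_of_norm_le_rpow (C := 1) (α := 1) (by simp; omega) (by simp; omega)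
        (Eventually.of_forall fun x => by
          rw [one_mul, Real.norm_of_nonneg (by positivity)])
        (Measurable.aestronglyMeasurable (by fun_prop))
    refine (h1.add continuous_norm.locallyIntegrable).mono Gam_meas.aestronglyMeasurable
      (Eventually.of_forall fun x => ?_)
    simp only [Gam, if_pos e, norm_neg, Pi.add_apply, Real.rpow_neg_one, Real.norm_eq_abs]
    rw [abs_of_nonneg (a := _ + _) (by positivity), abs_le]
    rcases (norm_nonneg x).eq_or_lt with h0 | h0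
    · simp [← h0]
    · have k1 := Real.log_le_sub_one_of_pos h0
      have k2 := Real.log_le_sub_one_of_pos (inv_pos.2 h0)
      rw [Real.log_inv] at k2
      constructor <;> linarith [inv_pos.2 h0]
  · exact locallyIntegrable_of_norm_le_rpow (C := 1) (α := N - 2) (by simp; omega) (by simp)
      (Eventually.of_forall fun x => by
        rw [Gam, if_neg e, one_mul, Real.norm_of_nonneg (by positivity), neg_sub])
      Gam_meas.aestronglyMeasurable

lemma Gam_sh (h : 2 ≤ N) (w : E N) : LocallyIntegrable (fun z => Gam N (z - w)) := by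
  rw [locallyIntegrable_iff]
  intro K hK
  have := (Gam_li h).integrableOn_isCompact (hK.image (continuous_sub_right w))
  exact ((measurePreserving_sub_right volume w).integrableOn_comp_preimage
    (measurableEmbedding_subRight w) |>.2 this).mono_set (subset_preimage_image _ _)

lemma Gam_smul {r : ℝ} (hr : 0 < r) : ∃ c, ∀ v : E N, v ≠ 0 →
    Gam N (r • v) = r ^ (2 - N : ℝ) * Gam N v + c := by
  unfold Gam; split_ifs with e
  · refine ⟨-Real.log r, fun v hv => ?_⟩
    rw [norm_smul, Real.norm_of_nonneg hr.le, Real.log_mul hr.ne' (norm_ne_zero_iff.2 hv),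
      show (2 - N : ℝ) = 0 by rw [e]; norm_num, Real.rpow_zero]
    ring
  · refine ⟨0, fun v hv => ?_⟩
    rw [norm_smul, Real.norm_of_nonneg hr.le, Real.mul_rpow hr.le (norm_nonneg _), add_zero]

noncomputable def ee (i : Fin N) : E N := EuclideanSpace.single i 1

lemma hq (y : E N) (i : Fin N) (c : ℝ) :
    HasDerivAt (fun t : ℝ => ‖y + t • ee i‖ ^ 2 + c) (2 * y i) 0 := by
  have : (fun t : ℝ => ‖y + t • ee i‖ ^ 2 + c) = fun t => ‖y‖ ^ 2 + 2 * (t * y i) + t ^ 2 + c := by
    ext t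
    rw [norm_add_sq_real, inner_smul_right, norm_smul]
    simp [ee, EuclideanSpace.inner_single_right]
  rw [this]
  exact ((((((hasDerivAt_id (0 : ℝ)).mul_const (y i)).const_mul 2).const_add (‖y‖ ^ 2)).add
    (hasDerivAt_pow 2 (0 : ℝ))).add_const c).congr_deriv (by simp)

lemma hc (y : E N) (i : Fin N) : HasDerivAt (fun t : ℝ => 2 * (y + t • ee i) i) 2 0 := by
  have : (fun t : ℝ => 2 * (y + t • ee i) i) = fun t => 2 * (y i + t) := by
    ext t; simp [ee]
  rw [this]
  simpa using ((hasDerivAt_id (0 : ℝ)).const_add (y i)).const_mul 2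

lemma ibp {f f' g g' : E N → ℝ} (v : E N) (h1 : Continuous f) (h2 : Continuous f')
    (h3 : Continuous g) (h4 : Continuous g') (c3 : HasCompactSupport g)
    (c4 : HasCompactSupport g') (hf : ∀ x, HasLineDerivAt ℝ f (f' x) x v)
    (hg : ∀ x, HasLineDerivAt ℝ g (g' x) x v) : ∫ x, f x * g' x = -∫ x, f' x * g x :=
  integral_bilinear_hasLineDerivAt_right_eq_neg_left_of_integrable
    (B := ContinuousLinearMap.mul ℝ ℝ)
    ((h2.mul h3).integrable_of_hasCompactSupport c3.mul_left)
    ((h1.mul h4).integrable_of_hasCompactSupport c4.mul_left)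
    ((h1.mul h3).integrable_of_hasCompactSupport c3.mul_left) (fun x _ => hf x) fun x _ => hg x

noncomputable def ph (N : ℕ) : ContDiffBump (0 : E N) := ⟨1, 2, by norm_num, by norm_num⟩

noncomputable def p1 (i : Fin N) (z : E N) : ℝ := fderiv ℝ (ph N) z (ee i)

noncomputable def p2 (i : Fin N) (z : E N) : ℝ := fderiv ℝ (p1 i) z (ee i)

lemma p1_cd (i : Fin N) : ContDiff ℝ 1 (p1 i) :=
  (((ph N).contDiff (n := 2)).fderiv_right (m := 1) (by norm_num)).clm_apply contDiff_const

lemma p2_c (i : Fin N) : Continuous (p2 i) :=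
  ((p1_cd i).continuous_fderiv (by norm_num)).clm_apply continuous_const

lemma p1_ts (i : Fin N) : tsupport (p1 i) ⊆ closedBall 0 2 :=
  (tsupport_fderiv_apply_subset ℝ (ee i)).trans (ph N).tsupport_eq.subset

lemma p2_ts (i : Fin N) : tsupport (p2 i) ⊆ closedBall 0 2 :=
  (tsupport_fderiv_apply_subset ℝ (ee i)).trans (p1_ts i)

lemma p1_s (i : Fin N) : HasCompactSupport (p1 i) :=
  (isCompact_closedBall 0 2).of_isClosed_subset (isClosed_tsupport _) (p1_ts i)

lemma p2_s (i : Fin N) : HasCompactSupport (p2 i) :=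
  (isCompact_closedBall 0 2).of_isClosed_subset (isClosed_tsupport _) (p2_ts i)

lemma ibp2 {f f' f'' : E N → ℝ} (i : Fin N) (h1 : Continuous f) (h2 : Continuous f')
    (h3 : Continuous f'') (hf : ∀ x, HasLineDerivAt ℝ f (f' x) x (ee i))
    (hg : ∀ x, HasLineDerivAt ℝ f' (f'' x) x (ee i)) :
    ∫ x, f x * p2 i x = ∫ x, f'' x * ph N x := by
  rw [ibp (ee i) h1 h2 (p1_cd i).continuous (p2_c i) (p1_s i) (p2_s i) hf fun x =>
      ((p1_cd i).differentiable (by norm_num) x).hasFDerivAt.hasLineDerivAt _,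
    ibp (ee i) h2 h3 (ph N).continuous (p1_cd i).continuous (ph N).hasCompactSupport (p1_s i) hg
      fun x => (((ph N).contDiff (n := 1)).differentiable (by norm_num) x).hasFDerivAt.hasLineDerivAt _,
    neg_neg]

/-- Laplacian of the bump -/
noncomputable def DD (N : ℕ) (z : E N) : ℝ := ∑ i, p2 i z

lemma DD_c : Continuous (DD N) := continuous_finset_sum _ fun i _ => p2_c i

lemma DD_z {z : E N} (h : 2 < ‖z‖) : DD N z = 0 :=
  Finset.sum_eq_zero fun i _ => image_eq_zero_of_notMem_tsupport fun e =>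
    absurd (mem_closedBall_zero_iff.1 (p2_ts i e)) (not_le.2 h)

lemma DD_s : HasCompactSupport (DD N) :=
  HasCompactSupport.intro (isCompact_closedBall 0 2) fun z h =>
    DD_z (by simpa using h)

lemma DD_int : ∫ z, DD N z = 0 := by
  unfold DD
  rw [integral_finset_sum _ fun i _ => (p2_c i).integrable_of_hasCompactSupport (p2_s i)]
  refine Finset.sum_eq_zero fun i _ => ?_
  simpa using ibp2 (f := fun _ => 1) (f' := fun _ => 0) (f'' := fun _ => 0) i continuous_const
    continuous_const continuous_const (fun x => hasDerivAt_const _ _) fun x => hasDerivAt_const _ _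

lemma reg (w : E N) {ε : ℝ} (hε : 0 < ε) : ∫ z, G N (‖z - w‖ ^ 2 + ε ^ 2) * DD N z =
    2 * bb N * N * ∫ v : E N, (1 + ‖v‖ ^ 2) ^ (-((N : ℝ) + 2) / 2) * ph N (w + ε • v) := by
  have ht : ∀ y : E N, 0 < ‖y‖ ^ 2 + ε ^ 2 := fun y => by positivity
  have c0 : Continuous fun z : E N => ‖z - w‖ ^ 2 + ε ^ 2 := by fun_prop
  have cp : ∀ a : ℝ, Continuous fun z : E N => (‖z - w‖ ^ 2 + ε ^ 2) ^ a := fun a =>
    c0.rpow_const fun z => Or.inl (ht _).ne'
  have c1 : Continuous fun z : E N => G N (‖z - w‖ ^ 2 + ε ^ 2) :=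
    continuous_iff_continuousAt.2 fun z => ContinuousAt.comp (g := G N)
      (G_der (ht (z - w))).continuousAt c0.continuousAt
  let f2 : Fin N → E N → ℝ := fun i z => bb N * (-(N : ℝ) / 2 * (‖z - w‖ ^ 2 + ε ^ 2) ^
    (-(N : ℝ) / 2 - 1) * (2 * (z - w) i)) * (2 * (z - w) i) +
      bb N * (‖z - w‖ ^ 2 + ε ^ 2) ^ (-(N : ℝ) / 2) * 2
  have c2 : ∀ i, Continuous (f2 i) := fun i => by
    have := cp (-(N : ℝ) / 2 - 1)
    have := cp (-(N : ℝ) / 2)
    simp only [f2]; fun_prop
  have h1 : ∀ i, ∫ z, G N (‖z - w‖ ^ 2 + ε ^ 2) * p2 i z = ∫ z, f2 i z * ph N z := fun i => by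
    refine ibp2 (f' := fun z => bb N * (‖z - w‖ ^ 2 + ε ^ 2) ^ (-(N : ℝ) / 2) * (2 * (z - w) i))
      i c1 (by have := cp (-(N : ℝ) / 2); fun_prop) (c2 i) (fun x => ?_) fun x => ?_
    · have := HasDerivAt.comp (0 : ℝ) (h₂ := G N) (by simpa using G_der (ht (x - w)))
        (hq (x - w) i (ε ^ 2))
      unfold HasLineDerivAt
      simp only [add_sub_right_comm]
      exact this
    · have k1 := (hq (x - w) i (ε ^ 2)).rpow_const (p := -(N : ℝ) / 2)
        (Or.inl (by simpa using (ht (x - w)).ne'))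
      have := (k1.const_mul (bb N)).mul (hc (x - w) i)
      unfold HasLineDerivAt
      simp only [add_sub_right_comm]
      refine this.congr_deriv ?_
      simp only [f2, zero_smul, add_zero]; ring
  have h2 : ∀ z, ∑ i, f2 i z * ph N z =
      2 * bb N * N * (ε ^ 2 * (‖z - w‖ ^ 2 + ε ^ 2) ^ (-((N : ℝ) + 2) / 2) * ph N z) := fun z => by
    have e1 : (‖z - w‖ ^ 2 + ε ^ 2) ^ (-(N : ℝ) / 2) =
        (‖z - w‖ ^ 2 + ε ^ 2) ^ (-(N : ℝ) / 2 - 1) * (‖z - w‖ ^ 2 + ε ^ 2) := by
      rw [← Real.rpow_add_one (ht _).ne']; congr 1; ring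
    have e2 : ∑ i, (z - w) i ^ 2 = ‖z - w‖ ^ 2 := by
      rw [EuclideanSpace.real_norm_sq_eq]
    rw [show -((N : ℝ) + 2) / 2 = -(N : ℝ) / 2 - 1 by ring, ← Finset.sum_mul]
    simp only [f2, e1]
    generalize (‖z - w‖ ^ 2 + ε ^ 2) ^ (-(N : ℝ) / 2 - 1) = T
    rw [Finset.sum_congr rfl (g := fun i => -2 * bb N * N * T * (z - w) i ^ 2 +
      bb N * (T * (‖z - w‖ ^ 2 + ε ^ 2)) * 2) fun i _ => by ring, Finset.sum_add_distrib,
      ← Finset.mul_sum, e2]
    simp; ring
  simp only [DD, Finset.mul_sum]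
  rw [integral_finset_sum (f := fun i z => G N (‖z - w‖ ^ 2 + ε ^ 2) * p2 i z) _ fun i _ =>
    (c1.mul (p2_c i)).integrable_of_hasCompactSupport (p2_s i).mul_left,
    Finset.sum_congr rfl fun i _ => h1 i,
    ← integral_finset_sum (f := fun i z => f2 i z * ph N z) _ fun i _ =>
      ((c2 i).mul (ph N).continuous).integrable_of_hasCompactSupport
        (ph N).hasCompactSupport.mul_left]
  simp only [h2]
  rw [integral_const_mul, ← integral_add_left_eq_self _ w]
  congr 1
  have := Measure.integral_comp_smul volume (fun v : E N =>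
    ε ^ 2 * (‖w + v - w‖ ^ 2 + ε ^ 2) ^ (-((N : ℝ) + 2) / 2) * ph N (w + v)) ε
  rw [finrank_euclideanSpace_fin, abs_of_pos (by positivity), smul_eq_mul,
    eq_inv_mul_iff_mul_eq₀ (by positivity)] at this
  rw [← this, ← integral_const_mul]
  refine integral_congr_ae (Eventually.of_forall fun v => ?_)
  have e : (ε ^ 2) ^ (-((N : ℝ) + 2) / 2) = (ε ^ N * ε ^ 2)⁻¹ := by
    rw [← pow_add, ← Real.rpow_natCast, ← Real.rpow_mul hε.le, ← Real.rpow_natCast,
      ← Real.rpow_neg hε.le]
    congr 1; push_cast; ring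
  simp only [add_sub_cancel_left, norm_smul, mul_pow, Real.norm_eq_abs, sq_abs]
  rw [show ε ^ 2 * ‖v‖ ^ 2 + ε ^ 2 = ε ^ 2 * (1 + ‖v‖ ^ 2) by ring,
    Real.mul_rpow (by positivity) (by positivity), e]
  field_simp

theorem fund (h : 2 ≤ N) : ∃ κ : ℝ, κ ≠ 0 ∧ ∀ w, ∫ z, Gam N (z - w) * DD N z = κ * ph N w := by
  have hi : Integrable fun v : E N => (1 + ‖v‖ ^ 2) ^ (-((N : ℝ) + 2) / 2) :=
    integrable_rpow_neg_one_add_norm_sq (by simp)
  have hp : 0 < ∫ v : E N, (1 + ‖v‖ ^ 2) ^ (-((N : ℝ) + 2) / 2) := by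
    rw [integral_pos_iff_support_of_nonneg (fun v => by positivity) hi]
    rw [show Function.support _ = univ from eq_univ_of_forall fun v => by
      rw [Function.mem_support]; positivity]
    exact isOpen_univ.measure_pos _ univ_nonempty
  have hN : (0 : ℝ) < N := by exact_mod_cast (by omega : 0 < N)
  refine ⟨2 * bb N * N * ∫ v : E N, (1 + ‖v‖ ^ 2) ^ (-((N : ℝ) + 2) / 2),
    mul_ne_zero (mul_ne_zero (mul_ne_zero two_ne_zero (bb_neg h).ne) hN.ne') hp.ne', fun w => ?_⟩
  have : Nontrivial (E N) := Module.nontrivial_of_finrank_pos (R := ℝ) (by simp; omega)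
  have ae : ∀ᵐ z : E N, 0 < ‖z - w‖ ^ 2 :=
    (Measure.ae_ne volume w).mono fun z hz => pow_pos (norm_pos_iff.2 (sub_ne_zero.2 hz)) 2
  have t1 : Tendsto (fun ε : ℝ => ∫ z, G N (‖z - w‖ ^ 2 + ε ^ 2) * DD N z) (𝓝[>] 0)
      (𝓝 (∫ z, Gam N (z - w) * DD N z)) := by
    refine tendsto_integral_filter_of_dominated_convergence
      (fun z => (‖Gam N (z - w)‖ + ‖G N ((2 + ‖w‖) ^ 2 + 1)‖) • ‖DD N z‖)
      (Eventually.of_forall fun ε => Measurable.aestronglyMeasurable ?_) ?_ ?_ ?_
    · refine Measurable.mul ?_ DD_c.measurable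
      unfold G; split_ifs <;> fun_prop
    · filter_upwards [Ioo_mem_nhdsGT (zero_lt_one' ℝ)] with ε hε
      filter_upwards [ae] with z hz
      rw [norm_mul, smul_eq_mul]
      rcases lt_or_ge 2 ‖z‖ with e | e
      · simp [DD_z e]
      gcongr
      have k0 : ‖z - w‖ ^ 2 ≤ (2 + ‖w‖) ^ 2 := by gcongr; linarith [norm_sub_le z w]
      have k3 : ε ^ 2 ≤ 1 := by nlinarith [hε.1, hε.2]
      have k1 := G_anti h (a := ‖z - w‖ ^ 2) (b := ‖z - w‖ ^ 2 + ε ^ 2) hz
        (by simp only [mem_Ioi]; positivity) (by nlinarith)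
      have k2 := G_anti h (a := ‖z - w‖ ^ 2 + ε ^ 2) (b := (2 + ‖w‖) ^ 2 + 1)
        (by simp only [mem_Ioi]; positivity) (by simp only [mem_Ioi]; positivity) (by linarith)
      rw [G_eq] at k1
      simp only [Real.norm_eq_abs]
      rw [abs_le]
      constructor <;> linarith [neg_abs_le (G N ((2 + ‖w‖) ^ 2 + 1)), le_abs_self (Gam N (z - w)),
        abs_nonneg (G N ((2 + ‖w‖) ^ 2 + 1)), abs_nonneg (Gam N (z - w))]
    · have : LocallyIntegrable fun z => ‖Gam N (z - w)‖ := fun x => (Gam_sh h w x).norm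
      exact (this.add
        (locallyIntegrable_const _)).integrable_smul_right_of_hasCompactSupport DD_c.norm DD_s.norm
    · filter_upwards [ae] with z hz
      refine Tendsto.mul_const _ ?_
      rw [← G_eq]
      refine (G_der hz).continuousAt.tendsto.comp (tendsto_nhdsWithin_of_tendsto_nhds ?_)
      exact Continuous.tendsto' (by fun_prop) _ _ (by simp)
  have t2 : Tendsto (fun ε : ℝ => ∫ v : E N, (1 + ‖v‖ ^ 2) ^ (-((N : ℝ) + 2) / 2) *
      ph N (w + ε • v)) (𝓝[>] 0)
      (𝓝 (∫ v : E N, (1 + ‖v‖ ^ 2) ^ (-((N : ℝ) + 2) / 2) * ph N w)) := by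
    have hc := (ph N).continuous
    refine tendsto_integral_filter_of_dominated_convergence _
      (Eventually.of_forall fun ε => hi.1.mul (Continuous.aestronglyMeasurable (by fun_prop)))
      (Eventually.of_forall fun ε => Eventually.of_forall fun v => ?_) hi
      (Eventually.of_forall fun v => Tendsto.const_mul _ (tendsto_nhdsWithin_of_tendsto_nhds
        (Continuous.tendsto' (by fun_prop) _ _ (by simp))))
    rw [Real.norm_of_nonneg (mul_nonneg (by positivity) (ph N).nonneg)]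
    exact mul_le_of_le_one_right (by positivity) (ph N).le_one
  rw [integral_mul_const] at t2
  rw [mul_assoc]
  refine tendsto_nhds_unique t1 ((t2.const_mul _).congr' ?_)
  filter_upwards [self_mem_nhdsWithin] with ε hε
  exact (reg w hε).symm

end Pool.Agent.H.MP_19b229_an
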