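import Pool.Agent.H.MP_19b229_an.A

set_option autoImplicit false

namespace Pool.Agent.H.MP_19b229_an

open MeasureTheory Filter Topology Metric Set
open scoped ENNReal NNReal

variable {N : ℕ}

lemma fub (h : 2 ≤ N) (ν : Measure (E N)) [IsFiniteMeasure ν] {R : ℝ}
    (hν : ∀ᵐ y ∂ν, ‖y‖ ≤ R) (x : E N) {r : ℝ} (hr : 0 < r) :
    Integrable (fun p : E N × E N => Gam N (x + r • p.1 - p.2) * DD N p.1) (volume.prod ν) := by
  obtain ⟨M, hM⟩ := DD_c.bounded_above_of_compact_support (DD_s (N := N))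
  have hm : Measurable fun p : E N × E N => Gam N (x + r • p.1 - p.2) * DD N p.1 :=
    (Gam_meas.comp (by fun_prop)).mul (DD_c.measurable.comp measurable_fst)
  have h1 : IntegrableOn (Gam N) (closedBall 0 (‖x‖ + r * 2 + R)) :=
    (Gam_li h).integrableOn_isCompact (isCompact_closedBall _ _)
  let g : E N → ℝ := (closedBall (0 : E N) (‖x‖ + r * 2 + R)).indicator fun v => ‖Gam N v‖ * M
  have h2 : Integrable g := 
    IntegrableOn.integrable_indicator (h1.norm.mul_const M) measurableSet_closedBall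
  have h3 : Integrable fun z => g (r • z) := h2.comp_smul hr.ne'
  have e : ∀ y z : E N, r • (z + r⁻¹ • (x - y)) = x + r • z - y := fun y z => by
    rw [smul_add, smul_smul, mul_inv_cancel₀ hr.ne', one_smul]; abel
  have h4 : ∀ y : E N, ‖y‖ ≤ R → ∀ z, ‖Gam N (x + r • z - y) * DD N z‖ ≤
      g (r • (z + r⁻¹ • (x - y))) := fun y hy z => by
    have hM0 : 0 ≤ M := (norm_nonneg _).trans (hM 0)
    rcases lt_or_ge 2 ‖z‖ with k | k
    · rw [DD_z k, mul_zero, norm_zero]
      exact indicator_nonneg (fun _ _ => by positivity) _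
    · rw [e, norm_mul]
      simp only [g]
      rw [indicator_of_mem]
      · gcongr; exact hM z
      · rw [mem_closedBall_zero_iff]
        have := norm_add_le x (r • z)
        rw [norm_smul, Real.norm_of_nonneg hr.le] at this
        nlinarith [norm_sub_le (x + r • z) y]
  refine (integrable_prod_iff' hm.aestronglyMeasurable).2 ⟨hν.mono fun y hy => ?_, ?_⟩
  · exact (h3.comp_add_right _).mono' (hm.comp measurable_prodMk_right).aestronglyMeasurable
      (Eventually.of_forall (h4 y hy))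
  · refine (integrable_const (∫ z, g (r • z))).mono'
      hm.norm.aestronglyMeasurable.prod_swap.integral_prod_right' (hν.mono fun y hy => ?_)
    rw [Real.norm_of_nonneg (integral_nonneg fun _ => norm_nonneg _),
      ← integral_add_right_eq_self (fun z => g (r • z)) (r⁻¹ • (x - y))]
    exact integral_mono_of_nonneg (Eventually.of_forall fun _ => norm_nonneg _)
      (h3.comp_add_right _) (Eventually.of_forall (h4 y hy))

lemma pair (h : 2 ≤ N) {κ : ℝ} (hκ : ∀ w, ∫ z, Gam N (z - w) * DD N z = κ * ph N w)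
    (ν : Measure (E N)) [IsFiniteMeasure ν] {R : ℝ} (hν : ∀ᵐ y ∂ν, ‖y‖ ≤ R) (x : E N) {r : ℝ}
    (hr : 0 < r) : Integrable (fun z => (∫ y, Gam N (x + r • z - y) ∂ν) * DD N z) ∧
      ∫ z, (∫ y, Gam N (x + r • z - y) ∂ν) * DD N z =
        r ^ (2 - N : ℝ) * κ * ∫ y, ph N (r⁻¹ • (y - x)) ∂ν := by
  have hf := fub h ν hν x hr
  simp only [← integral_mul_const]
  refine ⟨hf.integral_prod_left, ?_⟩
  rw [integral_integral_swap hf, ← integral_const_mul]
  refine integral_congr_ae (Eventually.of_forall fun y => ?_)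
  obtain ⟨c, hc⟩ := Gam_smul (N := N) hr
  have : Nontrivial (E N) := Module.nontrivial_of_finrank_pos (R := ℝ) (by simp; omega)
  have e : ∀ᵐ z : E N, Gam N (x + r • z - y) * DD N z =
      r ^ (2 - N : ℝ) * (Gam N (z - r⁻¹ • (y - x)) * DD N z) + c * DD N z :=
    (Measure.ae_ne volume (r⁻¹ • (y - x))).mono fun z hz => by
      rw [← mul_assoc, ← add_mul, ← hc _ (sub_ne_zero.2 hz), smul_sub, smul_smul,
        mul_inv_cancel₀ hr.ne', one_smul]
      congr 2; abel
  simp only
  have i1 : Integrable fun z => Gam N (z - r⁻¹ • (y - x)) * DD N z :=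
    (Gam_sh h _).integrable_smul_right_of_hasCompactSupport DD_c DD_s
  rw [integral_congr_ae e, integral_add (i1.const_mul _)
    ((DD_c.integrable_of_hasCompactSupport DD_s).const_mul _), integral_const_mul,
    integral_const_mul, hκ, DD_int]
  ring

lemma iter {a : ℝ → ℝ} {s C M δ : ℝ} (hs : 0 < s) (hδ : 0 < δ) (hC : 0 ≤ C) (hM : ∀ r, a r ≤ M)
    (hM0 : 0 ≤ M) (h : ∀ r ∈ Ioo 0 δ, a r ≤ C * r ^ s + (2 * 2 ^ s)⁻¹ * a (2 * r)) :
    ∃ η > 0, ∀ r ∈ Ioo 0 η, a r ≤ (2 * C + 1) * r ^ s := by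
  have step : ∀ B r, r ∈ Ioo 0 δ → a (2 * r) ≤ B * (2 * r) ^ s → a r ≤ (C + B / 2) * r ^ s :=
    fun B r hr hB => by
      refine (h r hr).trans ?_
      rw [Real.mul_rpow (by norm_num) hr.1.le] at hB
      have : (2 * 2 ^ s)⁻¹ * a (2 * r) ≤ B / 2 * r ^ s := by
        rw [inv_mul_le_iff₀ (by positivity)]; linarith
      linarith
  set B := 2 * C + M / δ ^ s with hB
  have h1 : ∀ k : ℕ, ∀ r, 0 < r → δ ≤ 2 ^ k * r → a r ≤ B * r ^ s := fun k => by
    have base : ∀ r, δ ≤ r → a r ≤ B * r ^ s := fun r hr => by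
      have : M ≤ M / δ ^ s * r ^ s := by
        rw [div_mul_eq_mul_div, le_div_iff₀ (by positivity)]
        gcongr
      have h2 : 0 ≤ 2 * C * r ^ s := by have := hδ.trans_le hr; positivity
      rw [hB, add_mul]; linarith [hM r]
    induction k with
    | zero => exact fun r _ hr => base r (by simpa using hr)
    | succ k ih =>
      intro r hr hk
      rcases le_or_gt δ r with e | e
      · exact base r e
      · refine (step B r ⟨hr, e⟩ (ih _ (by linarith) (by rw [pow_succ] at hk; linarith))).trans ?_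
        have : 0 ≤ M / δ ^ s := by positivity
        gcongr; linarith
  have h2 : ∀ k : ℕ, ∃ η > 0, ∀ r ∈ Ioo 0 η, a r ≤ (2 * C + B / 2 ^ k) * r ^ s := fun k => by
    induction k with
    | zero =>
      refine ⟨1, one_pos, fun r hr => ?_⟩
      obtain ⟨k, hk⟩ := pow_unbounded_of_one_lt (δ / r) (one_lt_two (α := ℝ))
      refine (h1 k r hr.1 ((div_lt_iff₀ hr.1).1 hk).le).trans ?_
      have := hr.1
      gcongr; simp; linarith
    | succ k ih =>
      obtain ⟨η, h0, ih⟩ := ih
      refine ⟨min δ (η / 2), by positivity, fun r hr => ?_⟩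
      have := lt_min_iff.1 hr.2
      refine (step _ r ⟨hr.1, this.1⟩ (ih _ ⟨by linarith [hr.1], by linarith⟩)).trans_eq ?_
      rw [pow_succ]; ring
  obtain ⟨k, hk⟩ := pow_unbounded_of_one_lt B (one_lt_two (α := ℝ))
  obtain ⟨η, h0, h3⟩ := h2 k
  refine ⟨η, h0, fun r hr => (h3 r hr).trans ?_⟩
  have := hr.1
  gcongr
  exact (div_le_one (by positivity)).2 hk.le

lemma frost (p : Measure (E N)) {s C : ℝ} (hs : 0 < s) (hC : 0 < C) [IsFiniteMeasure p]
    (h : ∀ᵐ x ∂p, ∃ η > 0, ∀ r ∈ Ioo 0 η, p.real (closedBall x r) ≤ C * r ^ s) :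
    p ≤ ENNReal.ofReal C • μH[s] := by
  let A : ℕ → Set (E N) := fun n => {x | ∀ r ∈ Icc 0 (1 / (n + 1 : ℝ)),
    p.real (closedBall x r) ≤ C * r ^ s}
  have hA : Monotone A := fun n m hnm x hx r hr => hx r ⟨hr.1, hr.2.trans (by gcongr)⟩
  have h1 : ∀ᵐ x ∂p, x ∈ ⋃ n, A n := h.mono fun x ⟨η, h0, hx⟩ => by
    obtain ⟨n, hn⟩ := exists_nat_one_div_lt h0
    refine mem_iUnion.2 ⟨n, fun r hr => ?_⟩
    rcases hr.1.eq_or_lt with rfl | e
    · have t : Tendsto (fun r : ℝ => C * r ^ s) (𝓝[>] 0) (𝓝 (C * 0 ^ s)) :=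
        tendsto_nhdsWithin_of_tendsto_nhds
          ((Real.continuousAt_rpow_const 0 s (Or.inr hs.le)).tendsto.const_mul C)
      refine ge_of_tendsto t ?_
      filter_upwards [Ioo_mem_nhdsGT h0] with r hr
      exact (measureReal_mono (closedBall_subset_closedBall hr.1.le)).trans (hx r hr)
    · exact hx r ⟨e, hr.2.trans_lt hn⟩
  have hC' : ENNReal.ofReal C ≠ 0 := by simpa using hC
  have h2 : ∀ n, (ENNReal.ofReal C)⁻¹ • p.restrict (A n) ≤ μH[s] := fun n => by
    refine Measure.le_hausdorffMeasure s _ (ENNReal.ofReal (1 / (n + 1 : ℝ))) (by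
      simp; positivity) fun S hS => ?_
    rw [Measure.smul_apply, smul_eq_mul]
    rcases (closure S ∩ A n).eq_empty_or_nonempty with e | ⟨x, hx, hx'⟩
    · have : p.restrict (A n) S = 0 := measure_mono_null subset_closure (by
        rw [Measure.restrict_apply isClosed_closure.measurableSet, e, measure_empty])
      simp [this]
    have ht : ediam S ≠ ⊤ := ne_top_of_le_ne_top ENNReal.ofReal_ne_top hS
    have hd : diam S ≤ 1 / (n + 1 : ℝ) := ENNReal.toReal_le_of_le_ofReal (by positivity) hS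
    have hsub : S ⊆ closedBall x (diam S) := fun y hy => by
      rw [← diam_closure]
      exact dist_le_diam_of_mem' (by rwa [ediam_closure]) (subset_closure hy) hx
    rw [ENNReal.inv_mul_le_iff hC' ENNReal.ofReal_ne_top]
    calc p.restrict (A n) S ≤ p (closedBall x (diam S)) :=
          (Measure.restrict_le_self S).trans (measure_mono hsub)
      _ ≤ ENNReal.ofReal (C * diam S ^ s) := by
          rw [← ofReal_measureReal]
          exact ENNReal.ofReal_le_ofReal (hx' _ ⟨diam_nonneg, hd⟩)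
      _ = _ := by
          rw [ENNReal.ofReal_mul hC.le, ← ENNReal.ofReal_rpow_of_nonneg diam_nonneg hs.le, diam,
            ENNReal.ofReal_toReal ht]
  refine Measure.le_iff.2 fun S hS => ?_
  calc p S ≤ p (⋃ n, S ∩ A n) := measure_mono_ae (h1.mono fun x hx hx' => by
        obtain ⟨n, hn⟩ := mem_iUnion.1 hx
        exact mem_iUnion.2 ⟨n, hx', hn⟩)
    _ = ⨆ n, p (S ∩ A n) := Monotone.measure_iUnion fun n m k => inter_subset_inter_right _ (hA k)
    _ ≤ _ := iSup_le fun n => by
        have := h2 n S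
        rwa [Measure.smul_apply, smul_eq_mul, ENNReal.inv_mul_le_iff hC' ENNReal.ofReal_ne_top,
          Measure.restrict_apply hS] at this

lemma dens (p q : Measure (E N)) [IsFiniteMeasure p] [IsFiniteMeasure q] (hpq : q ⟂ₘ p)
    {s C : ℝ} (hs : 0 < s) (hC : 0 ≤ C) (h : ∀ᵐ x ∂p, ∃ δ > 0, ∀ r ∈ Ioo 0 δ,
      ∫ y, ph N (r⁻¹ • (y - x)) ∂p - ∫ y, ph N (r⁻¹ • (y - x)) ∂q ≤ C * r ^ s) :
    p ≤ ENNReal.ofReal (2 * C + 1) • μH[s] := by
  refine frost p hs (by positivity) ?_
  filter_upwards [h, Besicovitch.ae_tendsto_rnDeriv q p, hpq.rnDeriv_ae_eq_zero]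
    with x ⟨δ, h0, hx⟩ h1 h2
  rw [h2, Pi.zero_apply] at h1
  have h3 := h1.eventually (gt_mem_nhds (show (0 : ℝ≥0∞) < ENNReal.ofReal (2 * 2 ^ s)⁻¹ by
    simp; positivity))
  obtain ⟨δ', h4, h5⟩ := mem_nhdsGT_iff_exists_Ioo_subset.1 h3
  have h4' : 0 < δ' := h4
  refine iter (M := p.real univ) (δ := min δ (δ' / 2)) hs (by positivity) hC
    (fun r => measureReal_mono (subset_univ _)) (by positivity) fun r hr => ?_
  have hr0 := hr.1
  have hr1 := lt_min_iff.1 hr.2
  have hc : Continuous fun y : E N => ph N (r⁻¹ • (y - x)) := (ph N).continuous.comp (by fun_prop)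
  have hn : ∀ y : E N, ‖r⁻¹ • (y - x)‖ = dist y x / r := fun y => by
    rw [norm_smul, norm_inv, Real.norm_of_nonneg hr0.le, dist_eq_norm, div_eq_inv_mul]
  have k1 : p.real (closedBall x r) ≤ ∫ y, ph N (r⁻¹ • (y - x)) ∂p := by
    rw [← integral_indicator_one measurableSet_closedBall]
    refine integral_mono_of_nonneg (Eventually.of_forall fun y =>
      indicator_nonneg (fun _ _ => zero_le_one) _) ((integrable_const 1).mono'
        hc.aestronglyMeasurable (Eventually.of_forall fun y => by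
          rw [Real.norm_of_nonneg (ph N).nonneg]; exact (ph N).le_one))
      (Eventually.of_forall fun y => ?_)
    by_cases hy : y ∈ closedBall x r
    · simp only [indicator_of_mem hy]
      rw [(ph N).one_of_mem_closedBall (by
        rw [mem_closedBall_zero_iff, hn]; exact (div_le_one hr0).2 hy)]
      rfl
    · simp only [indicator_of_notMem hy]
      exact (ph N).nonneg
  have k2 : ∫ y, ph N (r⁻¹ • (y - x)) ∂q ≤ q.real (closedBall x (2 * r)) := by
    rw [← integral_indicator_one measurableSet_closedBall]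
    refine integral_mono_of_nonneg (Eventually.of_forall fun y => (ph N).nonneg)
      ((integrable_const 1).indicator measurableSet_closedBall)
      (Eventually.of_forall fun y => ?_)
    by_cases hy : y ∈ closedBall x (2 * r)
    · simp only [indicator_of_mem hy]
      exact (ph N).le_one
    simp only [indicator_of_notMem hy]
    refine ((ph N).zero_of_le_dist ?_).le
    rw [dist_zero_right, hn]
    exact (le_div_iff₀ hr0).2 (not_le.1 hy).le
  have k3 : q.real (closedBall x (2 * r)) ≤ (2 * 2 ^ s)⁻¹ * p.real (closedBall x (2 * r)) := by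
    have := ENNReal.mul_le_of_le_div (a := q (closedBall x (2 * r)) / p (closedBall x (2 * r)))
      le_rfl
    have k4 : q (closedBall x (2 * r)) / p (closedBall x (2 * r)) < ENNReal.ofReal (2 * 2 ^ s)⁻¹ :=
      h5 ⟨by linarith, by linarith⟩
    have k5 := (ENNReal.div_le_iff_le_mul (Or.inr ENNReal.ofReal_ne_top)
      (Or.inl (measure_ne_top _ _))).1 k4.le
    have k6 := ENNReal.toReal_mono (ENNReal.mul_ne_top ENNReal.ofReal_ne_top
      (measure_ne_top _ _)) k5
    rwa [ENNReal.toReal_mul, ENNReal.toReal_ofReal (by positivity)] at k6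
  linarith [hx r ⟨hr0, hr1.1⟩]

/-- Newtonian potential of a signed measure, for the kernel c times Gam -/
noncomputable def pot (c : ℝ) (μ : SignedMeasure (E N)) (x : E N) : ℝ :=
  ∫ y, c * Gam N (x - y) ∂μ.toJordanDecomposition.posPart -
    ∫ y, c * Gam N (x - y) ∂μ.toJordanDecomposition.negPart

theorem main (hN : 2 ≤ N) {Ω : Set (E N)} (ho : IsOpen Ω) (hb : Bornology.IsBounded Ω)
    {β K : ℝ≥0} (h0 : 0 < β) {c : ℝ} (hc : c ≠ 0) (μ : SignedMeasure (E N))
    (hμ : μ.totalVariation Ωᶜ = 0) {u : E N → ℝ} (hu : HolderOnWith K β u Ω)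
    (he : ∀ᵐ x ∂volume.restrict Ω, pot c μ x = u x) :
    ∃ C : ℝ≥0, μ.totalVariation ≤ (C : ℝ≥0∞) • μH[N - 2 + β] := by
  obtain ⟨κ, hκ0, hκ⟩ := fund hN
  obtain ⟨R, hR⟩ := hb.exists_norm_le
  rw [SignedMeasure.totalVariation, Measure.add_apply, add_eq_zero] at hμ
  have hs : (0 : ℝ) < N - 2 + β := by
    have : (2 : ℝ) ≤ N := by exact_mod_cast hN
    have : (0 : ℝ) < β := h0
    linarith
  have hp : ∀ᵐ y ∂μ.toJordanDecomposition.posPart, y ∈ Ω := hμ.1
  have hq : ∀ᵐ y ∂μ.toJordanDecomposition.negPart, y ∈ Ω := hμ.2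
  have hm := μ.toJordanDecomposition.mutuallySingular
  unfold pot at he
  unfold SignedMeasure.totalVariation
  set p := μ.toJordanDecomposition.posPart
  set q := μ.toJordanDecomposition.negPart
  set C := K * 2 ^ (β : ℝ) * (∫ z, ‖DD N z‖) / |c * κ| with hC
  have hC0 : 0 ≤ C := by
    have : 0 ≤ ∫ z, ‖DD N z‖ := integral_nonneg fun _ => norm_nonneg _
    positivity
  have key : ∀ x ∈ Ω, ∃ δ > 0, ∀ r ∈ Ioo 0 δ, |∫ y, ph N (r⁻¹ • (y - x)) ∂p -
      ∫ y, ph N (r⁻¹ • (y - x)) ∂q| ≤ C * r ^ (N - 2 + β : ℝ) := fun x hx => by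
    obtain ⟨δ, hδ, hsub⟩ := Metric.isOpen_iff.1 ho x hx
    refine ⟨δ / 2, by positivity, fun r hr => ?_⟩
    have hr0 := hr.1
    obtain ⟨i1, e1⟩ := pair hN hκ p (hp.mono hR) x hr0
    obtain ⟨i2, e2⟩ := pair hN hκ q (hq.mono hR) x hr0
    have hT : Measure.QuasiMeasurePreserving (fun z : E N => x + r • z) volume volume :=
      (measurePreserving_add_left volume x).quasiMeasurePreserving.comp
        ⟨by fun_prop, by rw [Measure.map_addHaar_smul _ hr0.ne']; exact Measure.smul_absolutelyContinuous⟩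
    have he' := hT.ae ((ae_restrict_iff' ho.measurableSet).1 he)
    have iD := DD_c.integrable_of_hasCompactSupport (μ := volume) (DD_s (N := N))
    have e3 : c * (r ^ (2 - N : ℝ) * κ) * (∫ y, ph N (r⁻¹ • (y - x)) ∂p -
        ∫ y, ph N (r⁻¹ • (y - x)) ∂q) = ∫ z, c * ((∫ y, Gam N (x + r • z - y) ∂p) * DD N z) -
          c * ((∫ y, Gam N (x + r • z - y) ∂q) * DD N z) - u x * DD N z := by
      have i3 : Integrable fun z => c * ((∫ y, Gam N (x + r • z - y) ∂p) * DD N z) -
          c * ((∫ y, Gam N (x + r • z - y) ∂q) * DD N z) := (i1.const_mul c).sub (i2.const_mul c)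
      rw [integral_sub i3 (iD.const_mul _),
        integral_sub (i1.const_mul c) (i2.const_mul c), integral_const_mul, integral_const_mul,
        integral_const_mul, e1, e2, DD_int]
      ring
    have e4 := norm_integral_le_of_norm_le (iD.norm.const_mul (K * (2 * r) ^ (β : ℝ)))
      (f := fun z => c * ((∫ y, Gam N (x + r • z - y) ∂p) * DD N z) -
          c * ((∫ y, Gam N (x + r • z - y) ∂q) * DD N z) - u x * DD N z)
      (he'.mono fun z hz => by
        rcases lt_or_ge 2 ‖z‖ with k | k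
        · simp [DD_z k]
        have hd : dist (x + r • z) x ≤ 2 * r := by
          rw [dist_self_add_left, norm_smul, Real.norm_of_nonneg hr0.le]; nlinarith
        have hz1 : x + r • z ∈ Ω := hsub (by rw [mem_ball]; linarith [hr.2])
        have := hz hz1
        rw [integral_const_mul, integral_const_mul] at this
        rw [← mul_assoc, ← mul_assoc, ← sub_mul, ← sub_mul, this, norm_mul]
        gcongr
        rw [← dist_eq_norm]
        exact hu.dist_le_of_le hz1 hx hd)
    rw [← e3, integral_const_mul, norm_mul, Real.norm_eq_abs, Real.norm_eq_abs,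
      mul_left_comm c, abs_mul, abs_of_pos (Real.rpow_pos_of_pos hr0 _),
      Real.mul_rpow (by norm_num) hr0.le] at e4
    have hck : 0 < |c * κ| := abs_pos.2 (mul_ne_zero hc hκ0)
    have e5 : r ^ (β : ℝ) = r ^ (2 - N : ℝ) * r ^ (N - 2 + β : ℝ) := by
      rw [← Real.rpow_add hr0]; congr 1; ring
    rw [hC, div_mul_eq_mul_div, le_div_iff₀ hck]
    refine le_of_mul_le_mul_left ?_ (Real.rpow_pos_of_pos hr0 (2 - N : ℝ))
    rw [e5] at e4
    linarith
  have k1 := dens p q hm.symm hs hC0 (hp.mono fun x hx => (key x hx).imp fun δ h =>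
    ⟨h.1, fun r hr => (le_abs_self _).trans (h.2 r hr)⟩)
  have k2 := dens q p hm hs hC0 (hq.mono fun x hx => (key x hx).imp fun δ h =>
    ⟨h.1, fun r hr => (le_abs_self _).trans ((abs_sub_comm _ _).trans_le (h.2 r hr))⟩)
  refine ⟨(2 * C + 1).toNNReal + (2 * C + 1).toNNReal, ?_⟩
  rw [ENNReal.coe_add, add_smul]
  exact add_le_add k1 k2

end Pool.Agent.H.MP_19b229_an
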